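import Mathlib
import Pool.Agent.X101.GRS.Core

/-!
# MP_114a18_co: when `GR*_k(H) = GR_{k-1}(ℋ)`

For every `k ≥ 2` the equality holds for every graph `H` that is homomorphically equivalent to a
connected graph (in particular for every connected `H`), and for `k = 2` it holds for all `H`.
-/

set_option autoImplicit false

namespace Pool.Agent.Results.MP_114a18_co.ConnectedCore

/-- three distinct vertices whose three edges have three distinct colours -/
def RainbowTriangle {n k : ℕ} (c : Sym2 (Fin n) → Fin k) : Prop :=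
  ∃ x y z : Fin n, x ≠ y ∧ y ≠ z ∧ x ≠ z ∧
    c s(x, y) ≠ c s(y, z) ∧ c s(y, z) ≠ c s(x, z) ∧ c s(x, y) ≠ c s(x, z)

/-- for some colour `i` there is a homomorphism of `H` into the graph of the edges of colour `i`
of the complete graph, i.e. there is a monochromatic homomorphic copy of `H` -/
def MonoCopy {n k : ℕ} {W : Type} (H : SimpleGraph W) (c : Sym2 (Fin n) → Fin k) : Prop :=
  ∃ i : Fin k, ∃ f : W → Fin n, ∀ a b, H.Adj a b → f a ≠ f b ∧ c s(f a, f b) = i

/-- some edge has the colour of one of its two ends; `c s(i, i)` is the colour of the vertex `i` -/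
def EdgeLikeEnd {n k : ℕ} (c : Sym2 (Fin n) → Fin k) : Prop :=
  ∃ i j : Fin n, i < j ∧ (c s(i, j) = c s(i, i) ∨ c s(i, j) = c s(j, j))

/-- the `n` such that every Gallai-`k`-colouring of the edges of `K_n` has a monochromatic
homomorphic copy of `H` (the values of `c` on the diagonal play no role) -/
def SetGR {W : Type} (k : ℕ) (H : SimpleGraph W) : Set ℕ :=
  {n | ∀ c : Sym2 (Fin n) → Fin k, ¬ RainbowTriangle c → MonoCopy H c}

/-- the `N` such that every colouring of the nonempty subsets of size at most two of `[N]`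
(unordered pairs `s(i, j)`, with `s(i, i)` for the set `{i}`) satisfies 1. or 2. -/
def SetGRstar {W : Type} (k : ℕ) (H : SimpleGraph W) : Set ℕ :=
  {N | ∀ c : Sym2 (Fin N) → Fin k, (RainbowTriangle c ∨ MonoCopy H c) ∨ EdgeLikeEnd c}

/-- `GR_k(ℋ)` -/
noncomputable def GR {W : Type} (k : ℕ) (H : SimpleGraph W) : ℕ := sInf (SetGR k H)

/-- `GR*_k(H)` -/
noncomputable def GRstar {W : Type} (k : ℕ) (H : SimpleGraph W) : ℕ := sInf (SetGRstar k H)

/-- `H` is homomorphically equivalent to a connected graph, i.e. its core is connected -/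
def HasConnectedCore {W : Type} (H : SimpleGraph W) : Prop :=
  ∃ (U : Type) (K : SimpleGraph U), K.Connected ∧ Nonempty (H →g K) ∧ Nonempty (K →g H)

section proofs

variable {W : Type}

theorem edgeLikeEnd_of_ne {n k : ℕ} {c : Sym2 (Fin n) → Fin k} {i j : Fin n} (hij : i ≠ j)
    (h : c s(i, j) = c s(i, i) ∨ c s(i, j) = c s(j, j)) : EdgeLikeEnd c := by
  rcases lt_or_gt_of_ne hij with h1 | h1
  · exact ⟨i, j, h1, h⟩
  · refine ⟨j, i, h1, ?_⟩
    rw [Sym2.eq_swap]
    exact h.symm

/-- the easy inclusion: colour all vertices with a new colour -/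
theorem star_sub (H : SimpleGraph W) (k : ℕ) (hk : 1 ≤ k) : SetGRstar (k + 1) H ⊆ SetGR k H := by
  classical
  intro N hN c hc
  let c1 : Sym2 (Fin N) → Fin (k + 1) := fun e => if e.IsDiag then Fin.last k else (c e).castSucc
  have h1 : ∀ x y : Fin N, x ≠ y → c1 s(x, y) = (c s(x, y)).castSucc := by
    intro x y hxy
    simp only [c1]
    rw [if_neg]
    simpa using hxy
  have h2 : ∀ x : Fin N, c1 s(x, x) = Fin.last k := by
    intro x
    simp only [c1]
    rw [if_pos]
    simp
  rcases hN c1 with (⟨x, y, z, hxy, hyz, hxz, e1, e2, e3⟩ | ⟨i, f, hf⟩) | ⟨i, j, hij, h⟩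
  · refine absurd ⟨x, y, z, hxy, hyz, hxz, ?_, ?_, ?_⟩ hc
    · intro h; apply e1; rw [h1 x y hxy, h1 y z hyz, h]
    · intro h; apply e2; rw [h1 y z hyz, h1 x z hxz, h]
    · intro h; apply e3; rw [h1 x y hxy, h1 x z hxz, h]
  · by_cases hi : i = Fin.last k
    · refine ⟨⟨0, hk⟩, f, fun a b hab => ?_⟩
      obtain ⟨h3, h4⟩ := hf a b hab
      rw [h1 _ _ h3, hi] at h4
      exact absurd h4 (Fin.castSucc_lt_last _).ne
    · refine ⟨i.castPred hi, f, fun a b hab => ?_⟩
      obtain ⟨h3, h4⟩ := hf a b hab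
      refine ⟨h3, ?_⟩
      rw [h1 _ _ h3] at h4
      apply Fin.castSucc_injective
      rw [Fin.castSucc_castPred]
      exact h4
  · exfalso
    rw [h1 i j hij.ne, h2, h2] at h
    rcases h with h | h <;> exact absurd h (Fin.castSucc_lt_last _).ne

/-- the main inclusion -/
theorem sub_star (H : SimpleGraph W) (hH : HasConnectedCore H) (k : ℕ) (hk : 1 ≤ k) :
    SetGR k H ⊆ SetGRstar (k + 1) H := by
  classical
  obtain ⟨U, K, hK, ⟨φ⟩, ⟨ψ⟩⟩ := hH
  intro N hN c
  by_contra hcon
  push Not at hcon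
  obtain ⟨⟨hr, hm⟩, he⟩ := hcon
  have hs : ∀ x y : Fin N, c s(x, y) = c s(y, x) := fun x y => by rw [Sym2.eq_swap]
  obtain ⟨c', hc'⟩ := X101.GRS.recolour K hK (fun x y => c s(x, y)) (fun x => c s(x, x)) _
    (Finset.univ : Finset (Fin N)) ∅ (Fin.last k) le_rfl (fun x _ y _ _ => hs x y)
    (by
      intro x _ y _ z _ hxy hyz hxz
      by_contra hcon
      push Not at hcon
      exact hr ⟨x, y, z, hxy, hyz, hxz, hcon.1, hcon.2.1, hcon.2.2⟩)
    (by simp)
    (fun x _ y _ hxy h => he (edgeLikeEnd_of_ne hxy (Or.inl h)))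
    (by
      rintro j ⟨f, _, hf⟩
      exact hm ⟨j, fun w => f (φ w), fun a b hab => hf _ _ (φ.map_adj hab)⟩)
    (by simp)
  have hsym : ∀ x y, c' x y = c' y x := by
    intro x y
    by_cases h : x = y
    · rw [h]
    · exact hc'.sym x (Finset.mem_univ _) y (Finset.mem_univ _) h
  let d : Fin N → Fin N → Fin k := fun x y =>
    if h : c' x y = Fin.last k then ⟨0, hk⟩ else (c' x y).castPred h
  have hd : ∀ x y, x ≠ y → (d x y).castSucc = c' x y := by
    intro x y hxy
    have h := hc'.ne x (Finset.mem_univ _) y (Finset.mem_univ _) hxy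
    simp only [d]
    rw [dif_neg h, Fin.castSucc_castPred]
  have hdsym : ∀ x y, d x y = d y x := by
    intro x y
    simp only [d]
    simp only [hsym x y]
  let c1 : Sym2 (Fin N) → Fin k := Sym2.lift ⟨d, hdsym⟩
  have h1 : ∀ x y, c1 s(x, y) = d x y := fun x y => rfl
  have hr1 : ¬ RainbowTriangle c1 := by
    rintro ⟨x, y, z, hxy, hyz, hxz, e1, e2, e3⟩
    rw [h1, h1] at e1 e2 e3
    rcases hc'.gal x (Finset.mem_univ _) y (Finset.mem_univ _) z (Finset.mem_univ _) hxy hyz hxz
      with h | h | h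
    · rw [← hd x y hxy, ← hd y z hyz] at h
      exact e1 (Fin.castSucc_injective _ h)
    · rw [← hd y z hyz, ← hd x z hxz] at h
      exact e2 (Fin.castSucc_injective _ h)
    · rw [← hd x y hxy, ← hd x z hxz] at h
      exact e3 (Fin.castSucc_injective _ h)
  obtain ⟨i, f, hf⟩ := hN c1 hr1
  refine hc'.avoid i.castSucc ⟨fun u => f (ψ u), fun u => Finset.mem_univ _, fun a b hab => ?_⟩
  obtain ⟨h2, h3⟩ := hf _ _ (ψ.map_adj hab)
  refine ⟨h2, ?_⟩
  rw [← hd _ _ h2, ← h1, h3]

theorem fin2 {a b e : Fin 2} (h1 : e ≠ a) (h2 : e ≠ b) : a = b := by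
  revert a b e
  decide

/-- two colours: every graph with an edge -/
theorem sub_two (H : SimpleGraph W) (hH : ∃ a b, H.Adj a b) : SetGR 1 H ⊆ SetGRstar 2 H := by
  intro N hN c
  by_contra hcon
  push Not at hcon
  obtain ⟨⟨_, hm⟩, he⟩ := hcon
  obtain ⟨i, f, hf⟩ := hN (fun _ => 0) (by
    rintro ⟨x, y, z, _, _, _, e1, _, _⟩
    exact e1 rfl)
  obtain ⟨a, b, hab⟩ := hH
  have hv : ∀ x y : Fin N, c s(x, x) = c s(y, y) := by
    intro x y
    by_cases h : x = y
    · rw [h]
    · exact fin2 (fun h2 => he (edgeLikeEnd_of_ne h (Or.inl h2)))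
        (fun h2 => he (edgeLikeEnd_of_ne h (Or.inr h2)))
  have hev : ∀ x y x' y' : Fin N, x ≠ y → x' ≠ y' → c s(x, y) = c s(x', y') := by
    intro x y x' y' h h'
    refine fin2 (e := c s(x, x)) ?_ ?_
    · intro h2
      exact he (edgeLikeEnd_of_ne h (Or.inl h2.symm))
    · intro h2
      rw [hv x x'] at h2
      exact he (edgeLikeEnd_of_ne h' (Or.inl h2.symm))
  exact hm ⟨c s(f a, f b), f, fun a' b' hab' =>
    ⟨(hf a' b' hab').1, hev _ _ _ _ (hf a' b' hab').1 (hf a b hab).1⟩⟩

end proofs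

/-- **Main theorem.** (a) Let `k ≥ 2` and let `H` be a finite graph homomorphically equivalent to
a connected graph. Then the two sets of integers whose least elements are `GR*_k(H)` and
`GR_{k-1}(ℋ)` are equal; in particular `GR*_k(H) = GR_{k-1}(ℋ)`.
(b) For `k = 2` the same holds for every finite graph with at least one edge. -/
theorem result :
    (∀ (W : Type) [Finite W] (H : SimpleGraph W), HasConnectedCore H → ∀ k : ℕ, 2 ≤ k →
      SetGRstar k H = SetGR (k - 1) H ∧ GRstar k H = GR (k - 1) H) ∧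
    (∀ (W : Type) [Finite W] (H : SimpleGraph W), (∃ a b, H.Adj a b) →
      SetGRstar 2 H = SetGR 1 H ∧ GRstar 2 H = GR 1 H) := by
  constructor
  · intro W _ H hH k hk
    obtain ⟨k, rfl⟩ : ∃ m, k = m + 1 := ⟨k - 1, by omega⟩
    have h : SetGRstar (k + 1) H = SetGR (k + 1 - 1) H :=
      Set.Subset.antisymm (star_sub H k (by omega)) (sub_star H hH k (by omega))
    exact ⟨h, by unfold GRstar GR; rw [h]⟩
  · intro W _ H hH
    have h : SetGRstar 2 H = SetGR 1 H :=
      Set.Subset.antisymm (star_sub H 1 le_rfl) (sub_two H hH)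
    exact ⟨h, by unfold GRstar GR; rw [h]⟩

end Pool.Agent.Results.MP_114a18_co.ConnectedCore
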